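import Pool.Agent.Y571.NX.D

/-!
# Project NX of helper571: merging independent streams of uniform steps (`S_MERGE`)
-/

set_option autoImplicit false

open scoped ENNReal
open MeasureTheory

namespace Pool.Agent.Y145.NX

open Pool.Agent.Helper41.GF Pool.Agent.Y571.NX

section gen

variable {A : Type} [MeasurableSpace A]

/-- Prepend a step. -/
def cn (s : A) (u : ℕ → A) : ℕ → A := fun n => Nat.casesOn n s u

omit [MeasurableSpace A] in
lemma cn_zero (s : A) (u : ℕ → A) : cn s u 0 = s := rfl
omit [MeasurableSpace A] in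
lemma cn_succ (s : A) (u : ℕ → A) (n : ℕ) : cn s u (n + 1) = u n := rfl

lemma measurable_cn : Measurable (fun p : A × (ℕ → A) => cn p.1 p.2) := by
  apply measurable_pi_lambda
  intro n
  cases n with
  | zero => exact measurable_fst
  | succ n => exact (measurable_pi_apply n).comp measurable_snd

lemma measurable_cn_right (s : A) : Measurable (cn s) :=
  measurable_cn.comp (measurable_const.prodMk measurable_id)

lemma map_cn (ν : Measure A) [IsProbabilityMeasure ν] :
    (ν.prod (Measure.infinitePi fun _ : ℕ => ν)).map (fun p => cn p.1 p.2) =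
      Measure.infinitePi fun _ : ℕ => ν := by
  refine Measure.eq_infinitePi _ (fun s t ht => ?_)
  rw [Measure.map_apply measurable_cn (MeasurableSet.pi s.countable_toSet (fun _ _ => ht _))]
  classical
  set s1 : Finset ℕ := s.preimage (fun i => i + 1) (Function.Injective.injOn
    (add_left_injective 1)) with hs1
  have hpre : (fun p : A × (ℕ → A) => cn p.1 p.2) ⁻¹' ((s : Set ℕ).pi t)
      = (if 0 ∈ s then t 0 else Set.univ) ×ˢ ((s1 : Set ℕ).pi (fun i => t (i + 1))) := by
    ext ⟨a, u⟩
    simp only [Set.mem_preimage, Set.mem_pi, Set.mem_prod, hs1]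
    constructor
    · intro h
      refine ⟨?_, ?_⟩
      · split_ifs with h0
        · exact h 0 h0
        · trivial
      · intro i hi
        have hi' : i + 1 ∈ s := by simpa using hi
        exact h (i + 1) hi'
    · rintro ⟨h0, h1⟩ i hi
      cases i with
      | zero =>
        have h0s : (0 : ℕ) ∈ s := hi
        rw [if_pos h0s] at h0
        exact h0
      | succ i => exact h1 i (by simpa using hi)
  rw [hpre, Measure.prod_prod, Measure.infinitePi_pi _ (fun i _ => ht (i + 1))]
  have hs : ∏ i ∈ s, ν (t i) = (if 0 ∈ s then ν (t 0) else 1)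
      * ∏ i ∈ s1, ν (t (i + 1)) := by
    have hdec : s = (if 0 ∈ s then {0} else ∅) ∪ s1.map ⟨fun i => i + 1, add_left_injective 1⟩ := by
      ext i
      simp only [Finset.mem_union, Finset.mem_map, hs1, Finset.mem_preimage,
        Function.Embedding.coeFn_mk]
      cases i with
      | zero =>
        split_ifs with h0 <;> simp [h0]
      | succ i =>
        constructor
        · intro h; right; exact ⟨i, h, rfl⟩
        · rintro (h | ⟨j, hj, hji⟩)
          · split_ifs at h <;> simp at h
          · rwa [← hji]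
    have hdisj : Disjoint (if 0 ∈ s then ({0} : Finset ℕ) else ∅)
        (s1.map ⟨fun i => i + 1, add_left_injective 1⟩) := by
      split_ifs with h0
      · rw [Finset.disjoint_singleton_left]
        simp
      · simp
    conv_lhs => rw [hdec]
    rw [Finset.prod_union hdisj, Finset.prod_map]
    congr 1
    split_ifs <;> simp
  rw [hs]
  congr 1
  split_ifs <;> simp

lemma lintegral_cn [Fintype A] [MeasurableSingletonClass A] (ν : Measure A) [IsProbabilityMeasure ν]
    {F : (ℕ → A) → ℝ≥0∞} (hF : Measurable F) :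
    ∫⁻ u, F u ∂(Measure.infinitePi fun _ : ℕ => ν) =
      ∑ s : A, ν {s} * ∫⁻ u, F (cn s u) ∂(Measure.infinitePi fun _ : ℕ => ν) := by
  conv_lhs => rw [← map_cn]
  have hm : Measurable (fun p : A × (ℕ → A) => F (cn p.1 p.2)) := hF.comp measurable_cn
  rw [lintegral_map hF measurable_cn,
    lintegral_prod _ hm.aemeasurable, lintegral_fintype]
  exact Finset.sum_congr rfl (fun s _ => mul_comm _ _)

/-- a measure with the first step decomposition is the product measure -/
lemma unique_of_rec [Fintype A] [MeasurableSingletonClass A] (ν : Measure A)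
    [IsProbabilityMeasure ν] (M : Measure (ℕ → A)) [IsProbabilityMeasure M]
    (h : ∀ E : Set (ℕ → A), MeasurableSet E → M E = ∑ s : A, ν {s} * M {u | cn s u ∈ E}) :
    M = Measure.infinitePi fun _ : ℕ => ν := by
  have hcyl : ∀ (n : ℕ) (t : ℕ → Set A), (∀ i, MeasurableSet (t i)) →
      M {w | ∀ i < n, w i ∈ t i} = ∏ i ∈ Finset.range n, ν (t i) := by
    intro n
    induction n with
    | zero => intro t ht; simp
    | succ n ih =>
      intro t ht
      have hE : MeasurableSet {w : ℕ → A | ∀ i < n + 1, w i ∈ t i} := by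
        have : {w : ℕ → A | ∀ i < n + 1, w i ∈ t i} =
            ((Finset.range (n + 1) : Finset ℕ) : Set ℕ).pi t := by
          ext w
          simp [Set.mem_pi]
        rw [this]
        exact MeasurableSet.pi (Finset.countable_toSet _) (fun i _ => ht i)
      rw [h _ hE, Finset.prod_range_succ', mul_comm]
      classical
      have h1 : ∀ s : A, {u : ℕ → A | cn s u ∈ {w : ℕ → A | ∀ i < n + 1, w i ∈ t i}} =
          if s ∈ t 0 then {u | ∀ i < n, u i ∈ t (i + 1)} else ∅ := by
        intro s
        split_ifs with hs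
        · ext u
          simp only [Set.mem_ofPred_eq]
          constructor
          · intro hu i hi
            exact hu (i + 1) (by omega)
          · intro hu i hi
            cases i with
            | zero => exact hs
            | succ i => exact hu i (by omega)
        · rw [Set.eq_empty_iff_forall_notMem]
          intro u hu
          exact hs (hu 0 (by omega))
      have h2 : ∀ s : A, ν {s} * M {u | cn s u ∈ {w : ℕ → A | ∀ i < n + 1, w i ∈ t i}} =
          (if s ∈ t 0 then ν {s} else 0) * ∏ i ∈ Finset.range n, ν (t (i + 1)) := by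
        intro s
        rw [h1 s]
        split_ifs with hs
        · rw [ih (fun i => t (i + 1)) (fun i => ht _)]
        · simp
      rw [Finset.sum_congr rfl (fun s _ => h2 s), ← Finset.sum_mul]
      congr 1
      have h3 : ν (t 0) = ∑ s ∈ Finset.univ.filter (fun s => s ∈ t 0), ν {s} := by
        rw [sum_measure_singleton]
        congr 1
        ext s
        simp
      rw [h3, Finset.sum_filter]
  refine (Measure.eq_infinitePi _ (fun s t ht => ?_))
  classical
  set n := s.sup id + 1 with hn
  have hlt : ∀ i ∈ s, i < n := fun i hi => Nat.lt_succ_of_le (Finset.le_sup (f := id) hi)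
  have h1 : ((s : Set ℕ).pi t) = {w | ∀ i < n, w i ∈ (fun i => if i ∈ s then t i else Set.univ) i} := by
    ext w
    simp only [Set.mem_pi, Set.mem_ofPred_eq, Finset.mem_coe]
    constructor
    · intro hw i _
      by_cases hi : i ∈ s
      · simp only [hi, if_true]; exact hw i hi
      · simp only [hi, if_false]; trivial
    · intro hw i hi
      have := hw i (hlt i hi)
      simpa only [hi, if_true] using this
  rw [h1, hcyl n _ (fun i => by
    by_cases hi : i ∈ s
    · simp only [hi, if_true]; exact ht i
    · simp only [hi, if_false]; exact MeasurableSet.univ)]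
  have h2 : s ⊆ Finset.range n := fun i hi => Finset.mem_range.2 (hlt i hi)
  rw [← Finset.prod_subset h2]
  · exact Finset.prod_congr rfl (fun i hi => by rw [if_pos hi])
  · intro i _ hi
    rw [if_neg hi, measure_univ]

end gen

variable {d : ℕ} (ι : Fin 3 → Fin d)

lemma cnt_zero (V : ℕ → Fin d × Bool) : Pool.Agent.Y571.NX.cnt ι V 0 = 0 := by
  simp [Pool.Agent.Y571.NX.cnt]

open Classical in
lemma cnt_succ (s : Fin d × Bool) (V : ℕ → Fin d × Bool) (n : ℕ) :
    Pool.Agent.Y571.NX.cnt ι (cn s V) (n + 1) =
      (if s.1 ∈ Set.range ι then 1 else 0) + Pool.Agent.Y571.NX.cnt ι V n := by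
  unfold Pool.Agent.Y571.NX.cnt
  rw [Finset.card_filter, Finset.card_filter, Finset.sum_range_succ']
  rw [add_comm]
  congr 1

lemma mrg_out {s : Fin d × Bool} (hs : s.1 ∉ Set.range ι) (V : ℕ → Fin d × Bool) (u : Str) :
    mrg ι (cn s V) u = cn s (mrg ι V u) := by
  funext n
  cases n with
  | zero =>
    unfold mrg
    rw [cn_zero, if_neg hs, cn_zero]
  | succ n =>
    unfold mrg
    rw [cnt_succ, if_neg hs, zero_add, cn_succ, cn_succ]

lemma mrg_in {s : Fin d × Bool} (hs : s.1 ∈ Set.range ι) (V : ℕ → Fin d × Bool) (c : Stp) (u : Str) :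
    mrg ι (cn s V) (msc c u) = cn (ι c.1, c.2) (mrg ι V u) := by
  funext n
  cases n with
  | zero =>
    unfold mrg
    rw [cn_zero, if_pos hs, cn_zero, cnt_zero, msc_zero]
  | succ n =>
    unfold mrg
    rw [cnt_succ, if_pos hs, cn_succ, cn_succ, add_comm 1, msc_succ]

lemma measurable_cnt (n : ℕ) : Measurable (fun V : ℕ → Fin d × Bool => Pool.Agent.Y571.NX.cnt ι V n) := by
  classical
  have : (fun V : ℕ → Fin d × Bool => Pool.Agent.Y571.NX.cnt ι V n) =
      fun V => ∑ i ∈ Finset.range n, if (V i).1 ∈ Set.range ι then 1 else 0 := by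
    funext V
    unfold Pool.Agent.Y571.NX.cnt
    rw [Finset.card_filter]
  rw [this]
  apply Finset.measurable_sum
  intro i _
  have h1 : Measurable (fun a : Fin d × Bool => if a.1 ∈ Set.range ι then (1 : ℕ) else 0) :=
    Measurable.of_discrete
  exact h1.comp (measurable_pi_apply i)

lemma measurable_mrg : Measurable (fun z : (ℕ → Fin d × Bool) × Str => mrg ι z.1 z.2) := by
  classical
  apply measurable_pi_lambda
  intro n
  have h1 : Measurable (fun z : ℕ × Str => z.2 z.1) := by
    apply measurable_from_prod_countable_right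
    intro k
    exact measurable_pi_apply k
  have h2 : Measurable (fun z : (ℕ → Fin d × Bool) × Str => z.2 (Pool.Agent.Y571.NX.cnt ι z.1 n)) :=
    h1.comp (((measurable_cnt ι n).comp measurable_fst).prodMk measurable_snd)
  have h3 : Measurable (fun p : (Fin d × Bool) × Stp =>
      if p.1.1 ∈ Set.range ι then (ι p.2.1, p.2.2) else p.1) := Measurable.of_discrete
  have h4 := h3.comp (((measurable_pi_apply n).comp measurable_fst).prodMk h2 :
    Measurable (fun z : (ℕ → Fin d × Bool) × Str => (z.1 n, z.2 (Pool.Agent.Y571.NX.cnt ι z.1 n))))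
  have h5 : (fun z : (ℕ → Fin d × Bool) × Str => mrg ι z.1 z.2 n) =
      ((fun p : (Fin d × Bool) × Stp =>
        if p.1.1 ∈ Set.range ι then (ι p.2.1, p.2.2) else p.1) ∘
      (fun z : (ℕ → Fin d × Bool) × Str => (z.1 n, z.2 (Pool.Agent.Y571.NX.cnt ι z.1 n)))) := by
    funext z
    simp only [Function.comp_apply]
    unfold mrg
    split_ifs <;> rfl
  rw [h5]
  exact h4

theorem lawD_singleton (s : Fin d × Bool) : lawD d {s} = (2 * (d : ℝ≥0∞))⁻¹ := by
  unfold lawD
  rw [Measure.smul_apply, Measure.count_singleton, smul_eq_mul, mul_one]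

theorem lawD_prob (hd : 0 < d) : IsProbabilityMeasure (lawD d) := by
  constructor
  unfold lawD
  rw [Measure.smul_apply, Measure.count_univ, smul_eq_mul]
  have h1 : ((ENat.card (Fin d × Bool) : ℕ∞) : ℝ≥0∞) = 2 * (d : ℝ≥0∞) := by
    rw [ENat.card_eq_coe_fintype_card, Fintype.card_prod, Fintype.card_fin, Fintype.card_bool]
    push_cast
    rw [mul_comm]
  rw [h1]
  apply ENNReal.inv_mul_cancel
  · simp only [ne_eq, mul_eq_zero, OfNat.ofNat_ne_zero, Nat.cast_eq_zero, false_or]
    omega
  · exact ENNReal.mul_ne_top (by simp) (ENNReal.natCast_ne_top d)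

theorem merge : S_MERGE := by
  classical
  intro d ι hι
  have hd : 0 < d := by
    have := Fintype.card_le_of_injective ι hι
    simp only [Fintype.card_fin] at this
    omega
  have hp : IsProbabilityMeasure (lawD d) := lawD_prob hd
  have hPP : IsProbabilityMeasure PP := mv_prob2
  set Q := Measure.infinitePi fun _ : ℕ => lawD d with hQ
  have hQp : IsProbabilityMeasure Q := by rw [hQ]; infer_instance
  have hMp : IsProbabilityMeasure ((Q.prod PP).map (fun z => mrg ι z.1 z.2)) :=
    Measure.isProbabilityMeasure_map (measurable_mrg ι).aemeasurable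
  set M := (Q.prod PP).map (fun z => mrg ι z.1 z.2) with hM
  apply unique_of_rec
  intro E hE
  -- the integral of the indicator
  set F : (ℕ → Fin d × Bool) → ℝ≥0∞ := E.indicator 1 with hF
  have hFm : Measurable F := measurable_one.indicator hE
  have hME : M E = ∫⁻ V, ∫⁻ u, F (mrg ι V u) ∂PP ∂Q := by
    have h1 : Measurable (fun z : (ℕ → Fin d × Bool) × Str => F (mrg ι z.1 z.2)) :=
      hFm.comp (measurable_mrg ι)
    rw [← lintegral_prod _ h1.aemeasurable, ← lintegral_indicator_one hE, hM,
      lintegral_map hFm (measurable_mrg ι)]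
  have hMs : ∀ s : Fin d × Bool, M {w | cn s w ∈ E} =
      ∫⁻ V, ∫⁻ u, F (cn s (mrg ι V u)) ∂PP ∂Q := by
    intro s
    have hEs : MeasurableSet {w : ℕ → Fin d × Bool | cn s w ∈ E} := measurable_cn_right s hE
    have h0 : Measurable (fun w => F (cn s w)) := hFm.comp (measurable_cn_right s)
    have h1 : Measurable (fun z : (ℕ → Fin d × Bool) × Str => F (cn s (mrg ι z.1 z.2))) :=
      h0.comp (measurable_mrg ι)
    have h2 : M {w | cn s w ∈ E} = ∫⁻ w, F (cn s w) ∂M := by
      rw [← lintegral_indicator_one hEs]
      rfl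
    rw [← lintegral_prod _ h1.aemeasurable, h2, hM, lintegral_map h0 (measurable_mrg ι)]
  have hm2 : Measurable (fun V : ℕ → Fin d × Bool => ∫⁻ u, F (mrg ι V u) ∂PP) := by
    have h1 : Measurable (fun z : (ℕ → Fin d × Bool) × Str => F (mrg ι z.1 z.2)) :=
      hFm.comp (measurable_mrg ι)
    exact h1.lintegral_prod_right'
  rw [hME, lintegral_cn (lawD d) hm2]
  -- the two cases
  have hout : ∀ s : Fin d × Bool, s.1 ∉ Set.range ι →
      ∫⁻ V, ∫⁻ u, F (mrg ι (cn s V) u) ∂PP ∂Q = M {w | cn s w ∈ E} := by
    intro s hs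
    rw [hMs]
    simp only [mrg_out ι hs]
  have hin : ∀ s : Fin d × Bool, s.1 ∈ Set.range ι →
      ∫⁻ V, ∫⁻ u, F (mrg ι (cn s V) u) ∂PP ∂Q =
        (6 : ℝ≥0∞)⁻¹ * ∑ c : Stp, M {w | cn (ι c.1, c.2) w ∈ E} := by
    intro s hs
    have h1 : ∀ V, ∫⁻ u, F (mrg ι (cn s V) u) ∂PP =
        (6 : ℝ≥0∞)⁻¹ * ∑ c : Stp, ∫⁻ u, F (cn (ι c.1, c.2) (mrg ι V u)) ∂PP := by
      intro V
      have h2 : Measurable (fun u : Str => F (mrg ι (cn s V) u)) :=
        hFm.comp ((measurable_mrg ι).comp (measurable_const.prodMk measurable_id))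
      rw [mlintegral_PP h2]
      simp only [mrg_in ι hs]
    simp only [h1]
    rw [lintegral_const_mul, lintegral_finsetSum]
    · congr 1
      exact Finset.sum_congr rfl (fun c _ => (hMs _).symm)
    · intro c _
      have h3 : Measurable (fun z : (ℕ → Fin d × Bool) × Str =>
          F (cn (ι c.1, c.2) (mrg ι z.1 z.2))) :=
        hFm.comp ((measurable_cn_right _).comp (measurable_mrg ι))
      exact h3.lintegral_prod_right'
    · apply Finset.measurable_sum
      intro c _
      have h3 : Measurable (fun z : (ℕ → Fin d × Bool) × Str =>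
          F (cn (ι c.1, c.2) (mrg ι z.1 z.2))) :=
        hFm.comp ((measurable_cn_right _).comp (measurable_mrg ι))
      exact h3.lintegral_prod_right'
  simp only [lawD_singleton]
  rw [← Finset.mul_sum, ← Finset.mul_sum]
  congr 1
  rw [← Finset.sum_filter_add_sum_filter_not Finset.univ (fun s : Fin d × Bool => s.1 ∈ Set.range ι),
    ← Finset.sum_filter_add_sum_filter_not Finset.univ (fun s : Fin d × Bool => s.1 ∈ Set.range ι)
      (fun s => M {w | cn s w ∈ E})]
  congr 1
  · rw [Finset.sum_congr rfl (fun s hs => hin s (Finset.mem_filter.1 hs).2), Finset.sum_const,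
      nsmul_eq_mul]
    -- the bijection
    let e : Stp → Fin d × Bool := fun c => (ι c.1, c.2)
    have he : Function.Injective e := by
      rintro ⟨a, b⟩ ⟨a', b'⟩ h
      simp only [e, Prod.mk.injEq] at h
      exact Prod.ext (hι h.1) h.2
    have himg : Finset.univ.filter (fun s : Fin d × Bool => s.1 ∈ Set.range ι) =
        Finset.univ.image e := by
      ext ⟨a, b⟩
      simp only [Finset.mem_filter, Finset.mem_univ, true_and, Finset.mem_image, e,
        Set.mem_range, Prod.mk.injEq]
      constructor
      · rintro ⟨j, hj⟩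
        exact ⟨(j, b), hj, rfl⟩
      · rintro ⟨c, hc, -⟩
        exact ⟨c.1, hc⟩
    rw [himg, Finset.card_image_of_injective _ he, Finset.sum_image (fun a _ b _ h => he h)]
    have hcard : ((Finset.univ : Finset Stp).card : ℝ≥0∞) = 6 := by
      have : (Finset.univ : Finset Stp).card = 6 := by
        rw [Finset.card_univ]
        rfl
      rw [this]; norm_num
    rw [hcard, ← mul_assoc, ENNReal.mul_inv_cancel (by norm_num) (by norm_num), one_mul]
  · exact Finset.sum_congr rfl (fun s hs => hout s (Finset.mem_filter.1 hs).2)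

end Pool.Agent.Y145.NX
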